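import Mathlib

set_option autoImplicit false

/-!
Critical codes over the letters `K = F₂ × F₂` (MP_a46c6f_co): a critical code with a pointed word
`(e; {f, g})` has length five.
-/

namespace Pool.Agent.H64.Code

/-- The letters. -/
abbrev K := ZMod 2 × ZMod 2

/-- The letter `z`. -/
def z : K := (0, 1)

/-- The symplectic form. -/
def form (a b : K) : ZMod 2 := a.1 * b.2 + a.2 * b.1

/-- The word `w` has no letter `z`. -/
def ZFree {V : Type*} (w : V → K) : Prop := ∀ i, (w i).1 = 0 → w i = 0

/-- The word `w` splits in `L` at some `g` off its support. -/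
def Splits {V : Type*} (L : Submodule (ZMod 2) (V → K)) (w : V → K) : Prop :=
  ∃ g, ∃ c ∈ L, w g = 0 ∧ c g = z ∧ ∀ i, i ≠ g → c i = 0 ∨ c i = w i

section

variable {V : Type*} [Fintype V] [DecidableEq V]

theorem sum3 (φ : V → ZMod 2) {a b c : V} (hab : a ≠ b) (hac : a ≠ c) (hbc : b ≠ c)
    (h0 : ∀ i, i ≠ a → i ≠ b → i ≠ c → φ i = 0) (hs : ∑ i, φ i = 0) :
    φ a + φ b + φ c = 0 := by
  have h := Finset.sum_subset (Finset.subset_univ ({a, b, c} : Finset V)) (f := φ) (by
    intro i _ hi
    simp only [Finset.mem_insert, Finset.mem_singleton, not_or] at hi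
    exact h0 i hi.1 hi.2.1 hi.2.2)
  rw [hs, Finset.sum_insert (by simp [hab, hac]), Finset.sum_insert (by simp [hbc]),
    Finset.sum_singleton] at h
  rw [← h]; ring

theorem sum1 (φ : V → ZMod 2) {a : V} (h0 : ∀ i, i ≠ a → φ i = 0) (hs : ∑ i, φ i = 0) :
    φ a = 0 := by
  rw [Fintype.sum_eq_single a h0] at hs
  exact hs

/-- A code in which every `z`-free word splits, whose `{0, z}`-words are `0` and the constant `z`,
with a full word off `f` and a pointed word `(e; {f, g})`, has length five. -/
theorem five (L : Submodule (ZMod 2) (V → K))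
    (iso : ∀ u ∈ L, ∀ w ∈ L, ∑ i, form (u i) (w i) = 0)
    (crit : ∀ w ∈ L, w ≠ 0 → ZFree w → Splits L w)
    (zon : ∀ w ∈ L, (∀ i, (w i).1 = 0) → w = 0 ∨ ∀ i, w i = z)
    {H : V → K} (hH : H ∈ L) {e f g : V} (Hf : H f = 0) (Hj : ∀ j, j ≠ f → (H j).1 = 1)
    {P : V → K} (hP : P ∈ L) (hef : e ≠ f) (heg : e ≠ g) (hfg : f ≠ g)
    (Pe : P e = z) (Pf : (P f).1 = 1) (Pg : (P g).1 = 1)
    (P0 : ∀ i, i ≠ e → i ≠ f → i ≠ g → P i = 0) : Fintype.card V = 5 := by
  have He : (H e).1 = 1 := Hj e hef
  have letz : ∀ a : K, a.1 = 1 → (a + z).1 ≠ 0 := by decide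
  -- a word which splits at `r` splits with a half that has a prescribed value at `e`
  have half : ∀ w ∈ L, ∀ r, ∀ c ∈ L, w r = 0 → c r = z → (∀ i, i ≠ r → c i = 0 ∨ c i = w i) →
      r ≠ e → ∀ b : Bool, ∃ c ∈ L, c r = z ∧ (∀ i, i ≠ r → c i = 0 ∨ c i = w i) ∧
        c e = if b then w e else 0 := by
    intro w hw r c hc wr cr hi hre b
    have key : ∀ a b : K, (a = 0 ∨ a = b) → (a + b = 0 ∨ a + b = b) := by decide
    rcases hi e (Ne.symm hre) with h | h
    · cases b
      · exact ⟨c, hc, cr, hi, by simpa using h⟩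
      · refine ⟨c + w, L.add_mem hc hw, ?_, fun i hir => ?_, ?_⟩
        · simp [cr, wr]
        · simpa using key _ _ (hi i hir)
        · simp [h]
    · cases b
      · refine ⟨c + w, L.add_mem hc hw, ?_, fun i hir => ?_, ?_⟩
        · simp [cr, wr]
        · simpa using key _ _ (hi i hir)
        · have : ∀ a : K, a + a = 0 := by decide
          simpa [h] using this (w e)
      · exact ⟨c, hc, cr, hi, by simpa using h⟩
  -- step 0
  have Hg : H g = P g + z := by
    have h := sum3 (fun i => form (H i) (P i)) hef heg hfg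
      (fun i h1 h2 h3 => by simp [P0 i h1 h2 h3, form]) (iso H hH P hP)
    have hg := Hj g (Ne.symm hfg)
    simp only [Hf, Pe] at h
    revert h
    generalize H e = x at *
    generalize P f = y at *
    generalize H g = s at *
    generalize P g = t at *
    revert x y s t
    decide
  -- step 1
  obtain ⟨c, hc, cf, ci, ce⟩ : ∃ c ∈ L, c f = z ∧ (∀ i, i ≠ f → c i = 0 ∨ c i = H i) ∧
      c e = H e := by
    have hH0 : H ≠ 0 := fun h => by rw [h] at He; simp at He
    obtain ⟨r, c, hc, hr, cr, ci⟩ := crit H hH hH0 (fun i h => by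
      by_cases hi : i = f
      · rw [hi, Hf]
      · rw [Hj i hi] at h; exact absurd h (by decide))
    have hrf : r = f := by
      by_contra hn
      have := Hj r hn
      rw [hr] at this; simp at this
    subst hrf
    obtain ⟨c', h1, h2, h3, h4⟩ := half H hH r c hc hr cr ci (Ne.symm hef) true
    exact ⟨c', h1, h2, h3, by simpa using h4⟩
  have cg : c g = 0 := by
    have h := sum3 (fun i => form (c i) (P i)) hef heg hfg
      (fun i h1 h2 h3 => by simp [P0 i h1 h2 h3, form]) (iso c hc P hP)
    have h1 := ci g (Ne.symm hfg)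
    simp only [cf, ce, Pe] at h
    rw [Hg] at h1
    have k1 : ∀ x : K, x.1 = 1 → form x z = 1 := by decide
    have k2 : ∀ x : K, x.1 = 1 → form z x = 1 := by decide
    have k3 : ∀ b : ZMod 2, 1 + 1 + b = 0 → b = 0 := by decide
    have key : ∀ s t : K, (s = 0 ∨ s = t + z) → t.1 = 1 → form s t = 0 → s = 0 := by decide
    rw [k1 _ He, k2 _ Pf] at h
    exact key _ _ h1 Pg (k3 _ h)
  -- step 2
  have κ0 : ∀ i, i ≠ e → i ≠ f → i ≠ g → (c + P) i = c i := fun i h1 h2 h3 => by
    simp [P0 i h1 h2 h3]
  have κe : (c + P) e = H e + z := by simp [ce, Pe]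
  have κf : (c + P) f = z + P f := by simp [cf]
  have κg : (c + P) g = P g := by simp [cg]
  have hκ : c + P ∈ L := L.add_mem hc hP
  obtain ⟨h, d, hd, hhe, hhf, hhg, ch, dh, di, de⟩ : ∃ h, ∃ d ∈ L, h ≠ e ∧ h ≠ f ∧ h ≠ g ∧ c h = 0 ∧
      d h = z ∧ (∀ i, i ≠ h → d i = 0 ∨ d i = (c + P) i) ∧ d e = 0 := by
    have h0 : c + P ≠ 0 := fun h => by
      rw [← κg, h] at Pg; simp at Pg
    obtain ⟨r, θ, hθ, hr, θr, θi⟩ := crit (c + P) hκ h0 (fun i hi => by
      by_cases h1 : i = e
      · subst h1; rw [κe] at hi; exact absurd hi (letz _ He)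
      by_cases h2 : i = f
      · subst h2; rw [κf, add_comm] at hi; exact absurd hi (letz _ Pf)
      by_cases h3 : i = g
      · subst h3; rw [κg] at hi ⊢
        rw [Pg] at hi; exact absurd hi (by decide)
      rw [κ0 i h1 h2 h3] at hi ⊢
      rcases ci i h2 with h4 | h4
      · exact h4
      · rw [h4, Hj i h2] at hi; exact absurd hi (by decide))
    have hre : r ≠ e := fun h => by
      subst h; rw [κe] at hr
      exact letz _ He (by rw [hr]; rfl)
    have hrf : r ≠ f := fun h => by
      subst h; rw [κf, add_comm] at hr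
      exact letz _ Pf (by rw [hr]; rfl)
    have hrg : r ≠ g := fun h => by
      subst h; rw [κg] at hr
      rw [hr] at Pg; simp at Pg
    obtain ⟨d, h1, h2, h3, h4⟩ := half (c + P) hκ r θ hθ hr θr θi hre false
    exact ⟨r, d, h1, hre, hrf, hrg, by rw [← κ0 r hre hrf hrg]; exact hr, h2, h3, by simpa using h4⟩
  have df : d f = 0 := by
    have h' := sum3 (fun i => form (d i) (P i)) hef heg hfg
      (fun i h1 h2 h3 => by simp [P0 i h1 h2 h3, form]) (iso d hd P hP)
    have h1 := di f (Ne.symm hhf)
    have h2 := di g (Ne.symm hhg)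
    rw [κf] at h1
    rw [κg] at h2
    simp only [de, Pe] at h'
    have key : ∀ x y s t : K, y.1 = 1 → (x = 0 ∨ x = z + y) → (s = 0 ∨ s = t) →
      form 0 z + form x y + form s t = 0 → x = 0 := by decide
    exact key _ _ _ _ Pf h1 h2 h'
  have dg : d g = P g := by
    have h2 := di g (Ne.symm hhg)
    rw [κg] at h2
    rcases h2 with h2 | h2
    · exfalso
      have h' := sum1 (fun i => form (d i) (H i)) (a := h) (fun i hi => by
        by_cases h1 : i = e
        · subst h1; simp [de, form]
        by_cases h2' : i = f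
        · subst h2'; simp [df, form]
        by_cases h3 : i = g
        · subst h3; simp [h2, form]
        have h4 := di i hi
        rw [κ0 i h1 h2' h3] at h4
        have h5 := ci i h2'
        show form (d i) (H i) = 0
        revert h4 h5
        generalize d i = x
        generalize c i = y
        generalize H i = t
        revert x y t
        decide) (iso d hd H hH)
      have hh := Hj h hhf
      simp only [dh] at h'
      revert h' hh
      generalize H h = x
      revert x
      decide
    · exact h2
  have dj : ∀ i, i ≠ e → i ≠ f → i ≠ g → i ≠ h → d i = 0 ∨ (d i = c i ∧ c i = H i) := by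
    intro i h1 h2 h3 h4
    have h5 := di i h4
    rw [κ0 i h1 h2 h3] at h5
    rcases ci i h2 with h6 | h6
    · left; rcases h5 with h5 | h5
      · exact h5
      · rw [h5, h6]
    · rcases h5 with h5 | h5
      · exact Or.inl h5
      · exact Or.inr ⟨h5, h6⟩
  -- step 3
  have hu : H + d ∈ L := L.add_mem hH hd
  have ue : (H + d) e = H e := by simp [de]
  have uf : (H + d) f = 0 := by simp [Hf, df]
  have ug : (H + d) g = z := by
    have : ∀ a : K, a + z + a = z := by decide
    simp only [Pi.add_apply, Hg, dg]; exact this _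
  have uh : (H + d) h = H h + z := by simp [dh]
  have uj : ∀ i, i ≠ e → i ≠ f → i ≠ g → i ≠ h → (H + d) i = 0 ∧ d i = H i ∧ c i = H i ∨
      (H + d) i = H i ∧ d i = 0 := by
    intro i h1 h2 h3 h4
    have key : ∀ a : K, a + a = 0 := by decide
    rcases dj i h1 h2 h3 h4 with h5 | ⟨h5, h6⟩
    · right; exact ⟨by simp [h5], h5⟩
    · left; exact ⟨by simp only [Pi.add_apply, h5, h6]; exact key _, by rw [h5, h6], h6⟩
  have hv : H + d + P ∈ L := L.add_mem hu hP
  have ve : (H + d + P) e = H e + z := by rw [Pi.add_apply, ue, Pe]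
  have vf : (H + d + P) f = P f := by rw [Pi.add_apply, uf, zero_add]
  have vg : (H + d + P) g = H g := by
    rw [Pi.add_apply, ug, Hg, add_comm]
  have vh : (H + d + P) h = H h + z := by
    rw [Pi.add_apply, uh, P0 h hhe hhf hhg, add_zero]
  have vj : ∀ i, i ≠ e → i ≠ f → i ≠ g → (H + d + P) i = (H + d) i := by
    intro i h1 h2 h3
    rw [Pi.add_apply, P0 i h1 h2 h3, add_zero]
  obtain ⟨k, d2, hd2, hke, hkf, hkg, hkh, uk, dk, ck, d2k, d2i, d2e⟩ : ∃ k, ∃ d2 ∈ L, k ≠ e ∧ k ≠ f ∧
      k ≠ g ∧ k ≠ h ∧ (H + d) k = 0 ∧ d k = H k ∧ c k = H k ∧ d2 k = z ∧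
      (∀ i, i ≠ k → d2 i = 0 ∨ d2 i = (H + d + P) i) ∧ d2 e = 0 := by
    have h0 : H + d + P ≠ 0 := fun h' => by
      rw [← vf, h'] at Pf; simp at Pf
    obtain ⟨r, θ, hθ, hr, θr, θi⟩ := crit (H + d + P) hv h0 (fun i hi => by
      by_cases h1 : i = e
      · subst h1; rw [ve] at hi; exact absurd hi (letz _ He)
      by_cases h2 : i = f
      · subst h2; rw [vf, Pf] at hi; exact absurd hi (by decide)
      by_cases h3 : i = g
      · subst h3; rw [vg, Hj i h2] at hi; exact absurd hi (by decide)
      by_cases h4 : i = h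
      · subst h4; rw [vh] at hi; exact absurd hi (letz _ (Hj i h2))
      rw [vj i h1 h2 h3] at hi ⊢
      rcases uj i h1 h2 h3 h4 with h5 | h5
      · exact h5.1
      · rw [h5.1, Hj i h2] at hi; exact absurd hi (by decide))
    have hre : r ≠ e := fun h' => by
      subst h'; rw [ve] at hr
      exact letz _ He (by rw [hr]; rfl)
    have hrf : r ≠ f := fun h' => by
      subst h'; rw [vf] at hr; rw [hr] at Pf; simp at Pf
    have hrg : r ≠ g := fun h' => by
      subst h'; rw [vg] at hr
      have := Hj r hrf; rw [hr] at this; simp at this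
    have hrh : r ≠ h := fun h' => by
      subst h'; rw [vh] at hr
      exact letz _ (Hj r hrf) (by rw [hr]; rfl)
    obtain ⟨d2, h1, h2, h3, h4⟩ := half (H + d + P) hv r θ hθ hr θr θi hre false
    rw [vj r hre hrf hrg] at hr
    rcases uj r hre hrf hrg hrh with h5 | h5
    · exact ⟨r, d2, h1, hre, hrf, hrg, hrh, h5.1, h5.2.1, h5.2.2, h2, h3, by simpa using h4⟩
    · exfalso
      have := Hj r hrf
      rw [← h5.1, hr] at this; simp at this
  have d2g : d2 g = 0 := by
    have h' := sum3 (fun i => form (d2 i) (P i)) hef heg hfg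
      (fun i h1 h2 h3 => by simp [P0 i h1 h2 h3, form]) (iso d2 hd2 P hP)
    have h1 := d2i f (Ne.symm hkf)
    have h2 := d2i g (Ne.symm hkg)
    rw [vf] at h1
    rw [vg, Hg] at h2
    simp only [d2e, Pe] at h'
    have key : ∀ x y s t : K, t.1 = 1 → (x = 0 ∨ x = y) → (s = 0 ∨ s = t + z) →
      form 0 z + form x y + form s t = 0 → s = 0 := by decide
    exact key _ _ _ _ Pg h1 h2 h'
  have d2f : d2 f = P f := by
    have h2 := d2i f (Ne.symm hkf)
    rw [vf] at h2
    rcases h2 with h2 | h2
    · exfalso
      have h' := sum1 (fun i => form (d2 i) (c i)) (a := k) (fun i hi => by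
        show form (d2 i) (c i) = 0
        by_cases h1 : i = e
        · subst h1; simp [d2e, form]
        by_cases h2' : i = f
        · subst h2'; simp [h2, form]
        by_cases h3 : i = g
        · subst h3; simp [d2g, form]
        by_cases h3' : i = h
        · subst h3'; simp [ch, form]
        have h4 := d2i i hi
        rw [vj i h1 h2' h3] at h4
        have h5 := ci i h2'
        rcases uj i h1 h2' h3 h3' with ⟨h6, h7, h8⟩ | ⟨h6, h7⟩
        · rw [h6] at h4
          have : d2 i = 0 := by rcases h4 with h4 | h4 <;> exact h4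
          simp [this, form]
        · rw [h6] at h4
          revert h4 h5
          generalize d2 i = x
          generalize c i = y
          generalize H i = t
          revert x y t
          decide) (iso d2 hd2 c hc)
      have hh := Hj k hkf
      simp only [d2k, ck] at h'
      revert h' hh
      generalize H k = x
      revert x
      decide
    · exact h2
  -- step 4
  have hT : c + d2 ∈ L := L.add_mem hc hd2
  have Te : (c + d2) e = H e := by simp [ce, d2e]
  have Tf : (c + d2) f = z + P f := by simp [cf, d2f]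
  have Tg : (c + d2) g = 0 := by simp [cg, d2g]
  have Th : (c + d2) h = 0 ∨ (c + d2) h = H h + z := by
    have h1 := d2i h (Ne.symm hkh)
    rw [vh] at h1
    simpa [ch] using h1
  have Tk : (c + d2) k = H k + z := by simp [ck, d2k]
  have Tj : ∀ i, i ≠ e → i ≠ f → i ≠ g → i ≠ h → i ≠ k → ((c + d2) i = 0 ∨ (c + d2) i = H i) ∧
      ((H + d) i = 0 → (c + d2) i = H i) := by
    intro i h1 h2 h3 h4 h5
    have h6 := d2i i h5
    rw [vj i h1 h2 h3] at h6
    have h7 := ci i h2
    rcases uj i h1 h2 h3 h4 with ⟨h8, h9, h10⟩ | ⟨h8, h9⟩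
    · rw [h8] at h6
      have : d2 i = 0 := by rcases h6 with h6 | h6 <;> exact h6
      have h11 : (c + d2) i = H i := by simp [this, h10]
      exact ⟨Or.inr h11, fun _ => h11⟩
    · rw [h8] at h6
      refine ⟨?_, fun h0 => ?_⟩
      · rw [Pi.add_apply]
        revert h6 h7
        generalize d2 i = x
        generalize c i = y
        generalize H i = t
        revert x y t
        decide
      · exfalso
        have := Hj i h2
        rw [← h8, h0] at this; simp at this
  have Tz : ZFree (c + d2) := by
    intro i hi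
    by_cases h1 : i = e
    · subst h1; rw [Te, He] at hi; exact absurd hi (by decide)
    by_cases h2 : i = f
    · subst h2; rw [Tf] at hi
      exact absurd (by rw [add_comm]; exact hi) (letz _ Pf)
    by_cases h3 : i = g
    · subst h3; exact Tg
    by_cases h4 : i = h
    · subst h4
      rcases Th with h5 | h5
      · exact h5
      · rw [h5] at hi; exact absurd hi (letz _ (Hj i h2))
    by_cases h5 : i = k
    · subst h5; rw [Tk] at hi; exact absurd hi (letz _ (Hj i h2))
    rcases (Tj i h1 h2 h3 h4 h5).1 with h6 | h6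
    · exact h6
    · rw [h6, Hj i h2] at hi; exact absurd hi (by decide)
  have uz : ∀ i, i ≠ g → ((H + d) i).1 = 0 → (H + d) i = 0 := by
    intro i h3 hi
    by_cases h1 : i = e
    · subst h1; rw [ue, He] at hi; exact absurd hi (by decide)
    by_cases h2 : i = f
    · subst h2; exact uf
    by_cases h4 : i = h
    · subst h4; rw [uh] at hi; exact absurd hi (letz _ (Hj i h2))
    rcases uj i h1 h2 h3 h4 with h6 | h6
    · exact h6.1
    · rw [h6.1, Hj i h2] at hi; exact absurd hi (by decide)
  -- compatibility
  have comp : ∀ i, i ≠ g → (H + d) i = 0 ∨ (c + d2) i = 0 ∨ (H + d) i = (c + d2) i := by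
    intro i h3
    by_cases h1 : i = e
    · subst h1; right; right; rw [ue, Te]
    by_cases h2 : i = f
    · subst h2; left; exact uf
    by_cases h4 : i = h
    · subst h4
      rcases Th with h5 | h5
      · right; left; exact h5
      · right; right; rw [uh, h5]
    by_cases h5 : i = k
    · subst h5; left; exact uk
    rcases (Tj i h1 h2 h3 h4 h5).1 with h6 | h6
    · right; left; exact h6
    · rcases uj i h1 h2 h3 h4 with h7 | h7
      · left; exact h7.1
      · right; right; rw [h6, h7.1]
  have cover : ∀ i, i ≠ g → (H + d) i = 0 → (c + d2) i ≠ 0 := by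
    intro i h3 h0
    have nz : ∀ a : K, a.1 = 1 → a + z ≠ 0 := by decide
    by_cases h1 : i = e
    · subst h1; rw [ue] at h0; rw [h0] at He; simp at He
    by_cases h2 : i = f
    · subst h2; rw [Tf, add_comm]; exact nz _ Pf
    by_cases h4 : i = h
    · subst h4; rw [uh] at h0; exact absurd h0 (nz _ (Hj i h2))
    by_cases h5 : i = k
    · subst h5; rw [Tk]; exact nz _ (Hj i h2)
    rw [(Tj i h1 h2 h3 h4 h5).2 h0]
    intro h6
    have := Hj i h2
    rw [h6] at this; simp at this
  have f0 : ∀ a : K, form a a = 0 := by decide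
  have fcomp : ∀ i, i ≠ g → form ((c + d2) i) ((H + d) i) = 0 ∧ form ((H + d) i) ((c + d2) i) = 0 := by
    intro i hi
    rcases comp i hi with h1 | h1 | h1
    · rw [h1]; simp [form]
    · rw [h1]; simp [form]
    · rw [h1]; exact ⟨f0 _, f0 _⟩
  -- step 5
  have Z : ∀ X ∈ L, X e = 0 → X f = 0 → X g = 0 →
      (∀ i, i ≠ e → i ≠ f → i ≠ g → X i = 0 ∨ X i = (H + d) i ∨ X i = (c + d2) i) → X = 0 := by
    intro X hX Xe Xf Xg Xi
    by_contra hX0
    obtain ⟨r, C, hC, hr, Cr, Ci⟩ := crit X hX hX0 (fun i hi => by
      by_cases h1 : i = e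
      · subst h1; exact Xe
      by_cases h2 : i = f
      · subst h2; exact Xf
      by_cases h3 : i = g
      · subst h3; exact Xg
      rcases Xi i h1 h2 h3 with h4 | h4 | h4
      · exact h4
      · rw [h4] at hi ⊢; exact uz i h3 hi
      · rw [h4] at hi ⊢; exact Tz i hi)
    have Ce : r ≠ e → C e = 0 := fun h' => by
      rcases Ci e (Ne.symm h') with h1 | h1
      · exact h1
      · rw [h1, Xe]
    have Cf : r ≠ f → C f = 0 := fun h' => by
      rcases Ci f (Ne.symm h') with h1 | h1
      · exact h1
      · rw [h1, Xf]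
    have Cg : r ≠ g → C g = 0 := fun h' => by
      rcases Ci g (Ne.symm h') with h1 | h1
      · exact h1
      · rw [h1, Xg]
    by_cases hrg : r = g
    · subst hrg
      have h' := sum3 (fun i => form (C i) (P i)) hef heg hfg
        (fun i h1 h2 h3 => by simp [P0 i h1 h2 h3, form]) (iso C hC P hP)
      simp only [Ce (Ne.symm heg), Cf (Ne.symm hfg), Cr] at h'
      revert h' Pg
      generalize P r = x
      generalize P e = y
      generalize P f = t
      revert x y t
      decide
    · have h1 := sum1 (fun i => form (C i) ((H + d) i)) (a := r) (fun i hi => by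
        show form (C i) ((H + d) i) = 0
        rcases Ci i hi with h1 | h1
        · simp [h1, form]
        by_cases h2 : i = e
        · subst h2; simp [h1, Xe, form]
        by_cases h3 : i = f
        · subst h3; simp [h1, Xf, form]
        by_cases h4 : i = g
        · subst h4; simp [h1, Xg, form]
        rcases Xi i h2 h3 h4 with h5 | h5 | h5
        · simp [h1, h5, form]
        · rw [h1, h5]; exact f0 _
        · rw [h1, h5]; exact (fcomp i h4).1) (iso C hC _ hu)
      have h2 := sum1 (fun i => form (C i) ((c + d2) i)) (a := r) (fun i hi => by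
        show form (C i) ((c + d2) i) = 0
        rcases Ci i hi with h1 | h1
        · simp [h1, form]
        by_cases h2 : i = e
        · subst h2; simp [h1, Xe, form]
        by_cases h3 : i = f
        · subst h3; simp [h1, Xf, form]
        by_cases h4 : i = g
        · subst h4; simp [h1, Xg, form]
        rcases Xi i h2 h3 h4 with h5 | h5 | h5
        · simp [h1, h5, form]
        · rw [h1, h5]; exact (fcomp i h4).2
        · rw [h1, h5]; exact f0 _) (iso C hC _ hT)
      have fz : ∀ a : K, form z a = 0 → a.1 = 0 := by decide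
      simp only [Cr] at h1 h2
      exact cover r hrg (uz r hrg (fz _ h1)) (Tz r (fz _ h2))
  -- step 6
  obtain ⟨C, hC, Cg, Ci, Ce⟩ : ∃ C ∈ L, C g = z ∧ (∀ i, i ≠ g → C i = 0 ∨ C i = (c + d2) i) ∧
      C e = H e := by
    have h0 : c + d2 ≠ 0 := fun h' => by
      rw [← Te, h'] at He; simp at He
    obtain ⟨r, θ, hθ, hr, θr, θi⟩ := crit (c + d2) hT h0 Tz
    have hrg : r = g := by
      by_contra hrg
      have h1 := sum1 (fun i => form (θ i) ((H + d) i)) (a := r) (fun i hi => by
        show form (θ i) ((H + d) i) = 0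
        rcases θi i hi with h1 | h1
        · simp [h1, form]
        by_cases h4 : i = g
        · subst h4; simp [h1, Tg, form]
        rw [h1]; exact (fcomp i h4).1) (iso θ hθ _ hu)
      have fz : ∀ a : K, form z a = 0 → a.1 = 0 := by decide
      simp only [θr] at h1
      exact cover r hrg (uz r hrg (fz _ h1)) hr
    subst hrg
    obtain ⟨C, h1, h2, h3, h4⟩ := half (c + d2) hT r θ hθ hr θr θi (Ne.symm heg) true
    exact ⟨C, h1, h2, h3, by rw [← Te]; simpa using h4⟩
  have Cf : C f = 0 := by
    have h' := sum3 (fun i => form (C i) (P i)) hef heg hfg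
      (fun i h1 h2 h3 => by simp [P0 i h1 h2 h3, form]) (iso C hC P hP)
    have h1 := Ci f hfg
    rw [Tf] at h1
    simp only [Ce, Cg, Pe] at h'
    have key : ∀ x y s t : K, s.1 = 1 → t.1 = 1 → y.1 = 1 → (x = 0 ∨ x = z + y) →
      form s z + form x y + form z t = 0 → x = 0 := by decide
    exact key _ _ _ _ He Pg Pf h1 h'
  have hX := Z (H + d + C) (L.add_mem hu hC)
    (by
      have : ∀ a : K, a + a = 0 := by decide
      rw [Pi.add_apply, ue, Ce]; exact this _)
    (by rw [Pi.add_apply, uf, Cf, add_zero])
    (by rw [Pi.add_apply, ug, Cg]; decide)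
    (fun i h1 h2 h3 => by
      rw [Pi.add_apply]
      have h4 := Ci i h3
      have h5 := comp i h3
      revert h4 h5
      generalize C i = x
      generalize (H + d) i = y
      generalize (c + d2) i = t
      revert x y t
      decide)
  have Tn : ∀ i, i ≠ g → (c + d2) i ≠ 0 := by
    intro i h3 h0
    have h1 := congrFun hX i
    rw [Pi.add_apply] at h1
    have h2 := Ci i h3
    rw [h0] at h2
    have h4 : C i = 0 := by rcases h2 with h2 | h2 <;> exact h2
    rw [h4, add_zero] at h1
    exact cover i h3 h1 h0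
  -- step 7
  have W : ∀ i, (c + d2 + H + P) i = if i = e ∨ i = f ∨ i = g ∨ i = h ∨ i = k then z else 0 := by
    intro i
    rw [Pi.add_apply, Pi.add_apply]
    by_cases h1 : i = e
    · subst h1
      simp only [true_or, if_true]
      rw [Te, Pe]
      have : ∀ a : K, a + a + z = z := by decide
      exact this _
    by_cases h2 : i = f
    · subst h2
      simp only [true_or, or_true, if_true]
      rw [Tf, Hf]
      have : ∀ a : K, z + a + 0 + a = z := by decide
      exact this _
    by_cases h3 : i = g
    · subst h3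
      simp only [true_or, or_true, if_true]
      rw [Tg, Hg]
      have : ∀ a : K, 0 + (a + z) + a = z := by decide
      exact this _
    by_cases h4 : i = h
    · subst h4
      simp only [true_or, or_true, if_true]
      rcases Th with h5 | h5
      · exact absurd h5 (Tn i h3)
      · rw [h5, P0 i h1 h2 h3]
        have : ∀ a : K, a + z + a + 0 = z := by decide
        exact this _
    by_cases h5 : i = k
    · subst h5
      simp only [or_true, if_true]
      rw [Tk, P0 i h1 h2 h3]
      have : ∀ a : K, a + z + a + 0 = z := by decide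
      exact this _
    rw [if_neg (by tauto), P0 i h1 h2 h3]
    rcases (Tj i h1 h2 h3 h4 h5).1 with h6 | h6
    · exact absurd h6 (Tn i h3)
    · rw [h6]
      have : ∀ a : K, a + a + 0 = 0 := by decide
      exact this _
  have hW := zon (c + d2 + H + P) (L.add_mem (L.add_mem hT hH) hP) (fun i => by
    rw [W i]; split_ifs <;> rfl)
  have hall : ∀ i, i = e ∨ i = f ∨ i = g ∨ i = h ∨ i = k := by
    intro i
    by_contra hi
    rcases hW with h1 | h1
    · have h2 := congrFun h1 e
      rw [W e, if_pos (Or.inl rfl), Pi.zero_apply] at h2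
      exact absurd h2 (by decide)
    · have h2 := h1 i
      rw [W i, if_neg hi] at h2
      exact absurd h2 (by decide)
  have huniv : (Finset.univ : Finset V) = {e, f, g, h, k} := by
    ext i
    simp only [Finset.mem_univ, Finset.mem_insert, Finset.mem_singleton, true_iff]
    exact hall i
  rw [← Finset.card_univ, huniv]
  rw [Finset.card_insert_of_notMem, Finset.card_insert_of_notMem, Finset.card_insert_of_notMem,
    Finset.card_insert_of_notMem, Finset.card_singleton]
  · simp [Ne.symm hkh]
  · simp [Ne.symm hhg, Ne.symm hkg]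
  · simp [hfg, Ne.symm hhf, Ne.symm hkf]
  · simp [hef, heg, Ne.symm hhe, Ne.symm hke]

end

end Pool.Agent.H64.Code
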